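import Pool.Agent.H.MP_f73e8c_lc.Geo

namespace Pool.Agent.H.MP_f73e8c_lc

abbrev Pt := ℕ × ℕ

def routes : List (List (List Pt)) :=
  [[[(0,1),(0,0),(1,0),(2,0),(3,0),(4,0),(5,0),(6,0),(7,0),(8,0),(9,0),(9,1)],
    [(0,1),(0,2),(1,2),(2,2),(3,2),(4,2),(5,2),(6,2),(7,2),(8,2),(9,2),(9,1)]],
   [[(1,1),(1,2),(2,2),(3,2),(4,2),(5,2),(6,2),(7,2),(8,2),(8,1)],
    [(1,1),(1,0),(2,0),(3,0),(4,0),(5,0),(6,0),(7,0),(8,0),(8,1)]],
   [[(1,3),(1,2),(2,2),(2,3)], [(1,3),(1,4),(2,4),(2,3)]],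
   [[(4,3),(4,2),(5,2),(5,3)], [(4,3),(4,4),(5,4),(5,3)]],
   [[(7,3),(7,2),(8,2),(8,3)], [(7,3),(7,4),(8,4),(8,3)]],
   [[(6,4),(6,3),(6,2),(6,1),(5,1),(4,1),(3,1),(3,2),(3,3),(3,4),(2,4),(2,5),(3,5),(4,5),(5,5)],
    [(6,4),(5,4),(5,5)], [(6,4),(7,4),(7,5),(6,5),(5,5)]]]

def route (t o : ℕ) : List Pt := (routes.getD t []).getD o ((routes.getD t []).getD 0 [])

def core : List (Pt × Pt) := (routes.flatten.flatMap fun r => r.zip r.tail).dedup

def rc (t : ℕ) : Pt := [(0,1),(1,1),(1,3),(4,3),(7,3)].getD t (6,4)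
def sc (t : ℕ) : Pt := [(9,1),(8,1),(2,3),(5,3),(8,3)].getD t (5,5)
def be (t : ℕ) : Pt := (3 * t + 1, 2)
def ga (t : ℕ) : Pt := [(2,4),(5,4)].getD t (7,4)

def clo (Z : List Pt) (r : Pt) : List Pt :=
  (fun S => (S ++ (core.filter fun e => e.1 ∈ S ∧ e.2 ∉ Z).map Prod.snd).dedup)^[20] [r]

def Cut (t : ℕ) (Z : List Pt) : Prop :=
  rc t ∈ clo Z (rc t) ∧ sc t ∉ clo Z (rc t) ∧ ∀ e ∈ core, e.1 ∈ clo Z (rc t) → e.2 ∈ clo Z (rc t) ∨ e.2 ∈ Z

instance (t Z) : Decidable (Cut t Z) := by unfold Cut; infer_instance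

theorem cutX : ∀ k < 2, ∀ t < 3, Cut k [(4, 0), be t] := by decide +kernel
theorem cutL : ∀ t < 3, Cut (2 + t) [be t, ga t] := by decide +kernel
theorem cutC : Cut 5 [ga 0, ga 1, ga 2] := by decide +kernel

theorem route_ok : ∀ t < 6, ∀ o < 3, (route t o).head? = some (rc t) ∧ (route t o).getLast? = some (sc t) ∧
    (route t o).Nodup ∧ (route t o).IsChain (fun u v => (u, v) ∈ core) := by
  intro t ht o ho
  interval_cases t <;> interval_cases o <;> decide +kernel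

theorem core_ok : ∀ e ∈ core, e.2 = (e.1.1 + 1, e.1.2) ∨ e.2 = (e.1.1, e.1.2 + 1) ∨
    e.1 = (e.2.1 + 1, e.2.2) ∨ e.1 = (e.2.1, e.2.2 + 1) := by decide +kernel

theorem rs_ne : ∀ t < 6, rc t ≠ sc t := by decide

theorem dXY : ∀ o < 2, ∀ x ∈ route 0 o, x ∉ route 1 o := by decide +kernel
theorem dXL : ∀ k < 2, ∀ o < 2, ∀ t < 3, ∀ q < 2, (q = 0 → o = k) → ∀ x ∈ route k o, x ∉ route (2 + t) q := by
  intro k hk o ho
  interval_cases k <;> interval_cases o <;> decide +kernel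
theorem dLC : ∀ t < 3, ∀ q < 2, ∀ o < 3, (o = t → q = 0) → ∀ x ∈ route (2 + t) q, x ∉ route 5 o := by
  intro k hk o ho
  interval_cases k <;> interval_cases o <;> decide +kernel

def up (p : Pt) (m : ℕ) : Vx := (p.1, p.2, m)

def arcs (ty : ℕ → ℕ) (k : ℕ) : List (Vx × Vx) :=
  core.map (fun e => (up e.1 0, up e.2 0)) ++ (List.range k).flatMap fun i =>
    [(up (rc (ty i)) (i + 1), up (rc (ty i)) 0), (up (sc (ty i)) 0, up (sc (ty i)) (i + 1))]

def term (ty : ℕ → ℕ) (i : ℕ) : Vx × Vx := (up (rc (ty i)) (i + 1), up (sc (ty i)) (i + 1))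

theorem up_inj {p q m n} : up p m = up q n ↔ p = q ∧ m = n := by
  obtain ⟨a, b⟩ := p; obtain ⟨c, d⟩ := q; simp [up, and_assoc]

theorem mem_arcs {ty k e} : e ∈ arcs ty k ↔ (∃ c ∈ core, e = (up c.1 0, up c.2 0)) ∨ ∃ i < k,
    e = (up (rc (ty i)) (i + 1), up (rc (ty i)) 0) ∨ e = (up (sc (ty i)) 0, up (sc (ty i)) (i + 1)) := by
  simp only [arcs, List.mem_append, List.mem_map, List.mem_flatMap, List.mem_range, List.mem_cons,
    List.not_mem_nil, or_false, eq_comm (a := e)]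

theorem arcs_planar (ty k) : Planar (arcs ty k) := planar fun e he => by
  rcases mem_arcs.1 he with ⟨⟨⟨a, b⟩, c, d⟩, hc, rfl⟩ | ⟨i, -, rfl | rfl⟩
  · rcases core_ok _ hc with h | h | h | h <;> simp only [Prod.mk.injEq] at h <;> obtain ⟨rfl, rfl⟩ := h
    exacts [⟨a, d, 0, rfl⟩, ⟨c, b, 1, rfl⟩, ⟨c, b, 0, Sym2.eq_swap⟩, ⟨a, d, 1, Sym2.eq_swap⟩]
  · exact ⟨_, _, i + 2, Sym2.eq_swap⟩
  · exact ⟨_, _, i + 2, rfl⟩

theorem hit {ty k i Z P} (hc : Cut (ty i) Z) (hP : IsPath (arcs ty k) (term ty i) P) : ∃ z ∈ Z, up z 0 ∈ P := by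
  obtain ⟨h1, h2, -, h4⟩ := hP
  by_contra hn
  have : ∀ v ∈ P, (v.1, v.2.1) ∈ clo Z (rc (ty i)) := by
    cases P with
    | nil => simp
    | cons a P =>
      obtain rfl : a = _ := Option.some.inj h1
      have h5 : ((term ty i).1 :: P).IsChain fun u v => v ∈ (term ty i).1 :: P ∧ (u, v) ∈ arcs ty k :=
        (List.isChain_iff_getElem.2 fun j hj => ⟨List.getElem_mem _, List.isChain_iff_getElem.1 h4 j hj⟩)
      refine List.forall_mem_cons.2 ⟨hc.1, List.IsChain.cons_induction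
        (p := fun v : Vx => (v.1, v.2.1) ∈ clo Z (rc (ty i))) _ h5 (fun u v ⟨hv, he⟩ hu => ?_) hc.1⟩
      rcases mem_arcs.1 he with ⟨c, h, e⟩ | ⟨j, -, e | e⟩ <;> obtain ⟨rfl, rfl⟩ := Prod.mk.inj e
      · exact (hc.2.2 c h hu).resolve_right fun hz => hn ⟨_, hz, hv⟩
      · exact hu
      · exact hu
  exact hc.2.1 (this _ (List.mem_of_getLast? h2))

def path (ty : ℕ → ℕ) (i o : ℕ) : List Vx :=
  (term ty i).1 :: (route (ty i) o).map (up · 0) ++ [(term ty i).2]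

theorem path_ok {ty k i o} (hi : i < k) (ht : ty i < 6) (ho : o < 3) :
    IsPath (arcs ty k) (term ty i) (path ty i o) := by
  obtain ⟨h1, h2, h3, h4⟩ := route_ok _ ht _ ho
  refine ⟨rfl, by simp [path, List.getLast?_cons], ?_, ?_⟩
  · have := rs_ne _ ht
    have h5 : ((route (ty i) o).map (up · 0)).Nodup := h3.map fun _ _ e => (up_inj.1 e).1
    simp [path, term, up_inj, List.nodup_append, h5, this, -Prod.forall, -Prod.exists]
  · unfold path
    rw [List.cons_append, List.isChain_cons, List.isChain_append]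
    refine ⟨fun y hy => ?_, ?_, by simp, fun x hx y hy => ?_⟩
    · simp only [List.head?_append, List.head?_map, h1, Option.map_some, Option.some_or, Option.mem_def,
        Option.some.injEq] at hy
      exact mem_arcs.2 (Or.inr ⟨i, hi, Or.inl (by rw [← hy]; rfl)⟩)
    · rw [List.isChain_map]; exact h4.imp fun a b h => mem_arcs.2 (Or.inl ⟨_, h, rfl⟩)
    · simp only [List.getLast?_map, h2, Option.map_some, Option.mem_def, Option.some.injEq,
        List.head?_cons] at hx hy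
      exact mem_arcs.2 (Or.inr ⟨i, hi, Or.inr (by rw [← hx, ← hy]; rfl)⟩)

theorem path_disj {ty i j o q} (h : i ≠ j) (hd : ∀ x ∈ route (ty i) o, x ∉ route (ty j) q) :
    (path ty i o).Disjoint (path ty j q) := by
  intro v h1 h2
  simp only [path, term, List.cons_append, List.mem_cons, List.mem_append, List.mem_map, List.not_mem_nil,
    or_false] at h1 h2
  rcases h1 with rfl | ⟨x, hx, rfl⟩ | rfl <;> simp only [up_inj] at h2 <;> grind

end Pool.Agent.H.MP_f73e8c_lc
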