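import Pool.Agent.Lib.lead.CXGraphRed

namespace Pool.Agent.H.MP_f73e8c_lc

abbrev Vx := ℕ × ℕ × ℕ

abbrev Inst := List (Vx × Vx) × List (Vx × Vx) × List (ℕ × ℕ)

def Planar (E : List (Vx × Vx)) : Prop :=
  ∃ f : Vx → ℝ × ℝ, Function.Injective f ∧ (∀ e ∈ E, ∀ w, f w ∉ openSegment ℝ (f e.1) (f e.2)) ∧
    ∀ e ∈ E, ∀ e' ∈ E, s(e.1, e.2) ≠ s(e'.1, e'.2) →
      Disjoint (openSegment ℝ (f e.1) (f e.2)) (openSegment ℝ (f e'.1) (f e'.2))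

def IsPath (E : List (Vx × Vx)) (t : Vx × Vx) (P : List Vx) : Prop :=
  P.head? = some t.1 ∧ P.getLast? = some t.2 ∧ P.Nodup ∧ P.IsChain fun u v => (u, v) ∈ E

def Gam (a : Inst) : SimpleGraph ℕ := SimpleGraph.fromRel fun i j => (i, j) ∈ a.2.2

def Valid (a : Inst) : Prop :=
  Planar a.1 ∧ (a.2.1.map Prod.fst ++ a.2.1.map Prod.snd).Nodup ∧
    (∀ t ∈ a.2.1, (∃ e ∈ a.1, e.1 = t.1) ∧ ∃ e ∈ a.1, e.2 = t.2) ∧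
    a.2.2.Nodup ∧ (∀ p ∈ a.2.2, p.1 < p.2 ∧ p.2 < a.2.1.length) ∧
    (∀ i, ((Gam a).neighborSet i).encard ≤ 3) ∧ (Gam a).Colorable 3 ∧ (Gam a).CliqueFree 4

def Solvable (a : Inst) : Prop :=
  ∃ P : ℕ → List Vx, (∀ i (h : i < a.2.1.length), IsPath a.1 a.2.1[i] (P i)) ∧
    ∀ p ∈ a.2.2, (P p.1).Disjoint (P p.2)

end Pool.Agent.H.MP_f73e8c_lc
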