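import Pool.Agent.H.MP_f73e8c_lc.Defs

namespace Pool.Agent.H.MP_f73e8c_lc

noncomputable def dl (m : ℕ) : ℝ := if m = 0 then 0 else 1 / (m + 1)

noncomputable def pos (v : Vx) : ℝ × ℝ := (v.1 + dl v.2.2, v.2.1 + dl v.2.2 ^ 2)

theorem dl_pos {m : ℕ} (h : m ≠ 0) : 0 < dl m := by simp only [dl, h, if_false]; positivity

theorem dl_nn (m : ℕ) : 0 ≤ dl m := by unfold dl; split_ifs <;> positivity

theorem dl_lt (m : ℕ) : dl m < 1 := by
  unfold dl; split_ifs with h
  · norm_num
  · rw [div_lt_one (by positivity)]; have : (0 : ℝ) < m := by positivity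
    linarith

theorem dl_inj {m m' : ℕ} (h : dl m = dl m') : m = m' := by
  by_cases h1 : m = 0 <;> by_cases h2 : m' = 0
  · omega
  · have := dl_pos h2; simp [dl, h1] at h; simp [dl, h2] at this; exact absurd (h h2) (by positivity)
  · have := dl_pos h1; rw [h, h2] at this; simp [dl] at this
  · simp only [dl, h1, h2, if_false] at h
    field_simp at h
    exact_mod_cast (add_right_cancel h).symm

theorem frac {x y : ℕ} {a b : ℝ} (ha : 0 ≤ a) (ha' : a < 1) (hb : 0 ≤ b) (hb' : b < 1) (h : x + a = y + b) :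
    x = y ∧ a = b := by
  have h1 : (x : ℝ) < y + 1 := by linarith
  have h2 : (y : ℝ) < x + 1 := by linarith
  have : x = y := by
    have h3 : x < y + 1 := by exact_mod_cast h1
    have h4 : y < x + 1 := by exact_mod_cast h2
    omega
  subst this; exact ⟨rfl, by linarith⟩

def oth (x y k : ℕ) : Vx := if k = 0 then (x + 1, y, 0) else if k = 1 then (x, y + 1, 0) else (x, y, k - 1)

noncomputable def dir (k : ℕ) : ℝ × ℝ := if k = 0 then (1, 0) else if k = 1 then (0, 1) else (dl (k - 1), dl (k - 1) ^ 2)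

def Legal (e : Vx × Vx) : Prop := ∃ x y k, s(e.1, e.2) = s((x, y, 0), oth x y k)

theorem seg {e : Vx × Vx} {x y k} (h : s(e.1, e.2) = s((x, y, 0), oth x y k)) {p : ℝ × ℝ}
    (hp : p ∈ openSegment ℝ (pos e.1) (pos e.2)) :
    ∃ t : ℝ, 0 < t ∧ t < 1 ∧ p.1 = x + t * (dir k).1 ∧ p.2 = y + t * (dir k).2 := by
  have : p ∈ openSegment ℝ (pos (x, y, 0)) (pos (oth x y k)) := by
    rcases Sym2.eq_iff.1 h with ⟨h1, h2⟩ | ⟨h1, h2⟩
    · rwa [h1, h2] at hp
    · rwa [h1, h2, openSegment_symm] at hp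
  rw [openSegment_eq_image] at this
  obtain ⟨t, ⟨h1, h2⟩, rfl⟩ := this
  refine ⟨t, h1, h2, ?_, ?_⟩ <;> unfold oth dir pos <;> split_ifs <;> simp [show dl 0 = 0 from if_pos rfl] <;> ring

theorem dir_rng (k : ℕ) {t : ℝ} (h : 0 < t) (h' : t < 1) :
    0 ≤ t * (dir k).1 ∧ t * (dir k).1 < 1 ∧ 0 ≤ t * (dir k).2 ∧ t * (dir k).2 < 1 := by
  have := dl_nn (k - 1); have := dl_lt (k - 1)
  unfold dir; split_ifs <;> simp [h.le, h'] <;> refine ⟨by positivity, by nlinarith, by positivity, ?_⟩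
  have : dl (k - 1) ^ 2 < 1 := by nlinarith
  nlinarith [sq_nonneg (dl (k - 1))]

theorem planar {E : List (Vx × Vx)} (h : ∀ e ∈ E, Legal e) : Planar E := by
  have sq : ∀ m, 0 ≤ dl m ^ 2 ∧ dl m ^ 2 < 1 := fun m => ⟨by positivity, by have := dl_nn m; have := dl_lt m; nlinarith⟩
  refine ⟨pos, fun ⟨x, y, m⟩ ⟨x', y', m'⟩ e => ?_, fun e he ⟨x', y', m⟩ hw => ?_, fun e he e' he' ne => ?_⟩
  · simp only [pos, Prod.mk.injEq] at e
    obtain ⟨rfl, h1⟩ := frac (dl_nn _) (dl_lt _) (dl_nn _) (dl_lt _) e.1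
    obtain ⟨rfl, -⟩ := frac (sq _).1 (sq _).2 (sq _).1 (sq _).2 e.2
    rw [dl_inj h1]
  · obtain ⟨x, y, k, hk⟩ := h e he
    obtain ⟨t, t0, t1, h1, h2⟩ := seg hk hw
    obtain ⟨r1, r2, r3, r4⟩ := dir_rng k t0 t1
    have h3 := (frac (dl_nn _) (dl_lt _) r1 r2 h1).2
    have h4 := (frac (sq _).1 (sq _).2 r3 r4 h2).2
    simp only at h3 h4
    rw [h3] at h4
    unfold dir at h4
    split_ifs at h4 with k0 k1
    · simp at h4; linarith
    · simp at h4; linarith
    · have := dl_pos (m := k - 1) (by omega)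
      simp only at h4
      have : t * dl (k - 1) ^ 2 * (1 - t) = 0 := by linear_combination -h4
      have : 0 < t * dl (k - 1) ^ 2 * (1 - t) := by have := sub_pos.2 t1; positivity
      linarith
  · refine Set.disjoint_left.2 fun p hp hp' => ne ?_
    obtain ⟨x, y, k, hk⟩ := h e he
    obtain ⟨x', y', k', hk'⟩ := h e' he'
    obtain ⟨t, t0, t1, h1, h2⟩ := seg hk hp
    obtain ⟨u, u0, u1, h3, h4⟩ := seg hk' hp'
    obtain ⟨r1, r2, r3, r4⟩ := dir_rng k t0 t1
    obtain ⟨s1, s2, s3, s4⟩ := dir_rng k' u0 u1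
    obtain ⟨rfl, e1⟩ := frac r1 r2 s1 s2 (h1.symm.trans h3)
    obtain ⟨rfl, e2⟩ := frac r3 r4 s3 s4 (h2.symm.trans h4)
    have : k = k' := by
      have p1 := fun h => dl_pos (m := k - 1) h
      have p2 := fun h => dl_pos (m := k' - 1) h
      unfold dir at e1 e2
      split_ifs at e1 e2 with a1 a2 a3 a4 a5 a6 a7 a8 <;> simp only [mul_one, mul_zero] at e1 e2 <;>
        first | omega | linarith | skip
      · have := p2 (by omega); have : 0 < u * dl (k' - 1) ^ 2 := by positivity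
        linarith
      · have := p2 (by omega); have : 0 < u * dl (k' - 1) := by positivity
        linarith
      · have := p1 (by omega); have : 0 < t * dl (k - 1) ^ 2 := by positivity
        linarith
      · have := p1 (by omega); have : 0 < t * dl (k - 1) := by positivity
        linarith
      · have := p1 (by omega)
        have h5 : t * dl (k - 1) * (dl (k - 1) - dl (k' - 1)) = 0 := by
          linear_combination e2 - dl (k' - 1) * e1
        have h6 : dl (k - 1) = dl (k' - 1) := by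
          rcases mul_eq_zero.1 h5 with h | h
          · exact absurd h (by positivity)
          · linarith
        have := dl_inj h6; omega
    rw [hk, hk', this]

end Pool.Agent.H.MP_f73e8c_lc
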